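import Pool.Agent.Helper18.KT.TrF
import Pool.Agent.Helper13.KC.S5
import Pool.Agent.Helper20.KT.Defs
import Pool.Agent.Helper94.KC.HS2

set_option autoImplicit false
set_option maxRecDepth 100000

/-!
Table form of the functional of the stability step: integer values on masks, symmetrisation over
the stabiliser of the labelled type, kernel version.
-/

namespace KC

open KF KT

/-- The root bits of the pair `5, 6`. -/
def hb (m : Nat) : Nat := m / 2 ^ 30 % 2 ^ 5

/-- Action of a swap on the root bits. -/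
def tbF (i b : Nat) : Nat := hb (tau i (b * 2 ^ 30))

theorem hb_lt (m : Nat) : hb m < 2 ^ 5 := Nat.mod_lt _ (by norm_num)

theorem hb_bit (m t : Nat) (ht : t < 5) : (hb m).testBit t = m.testBit (30 + t) := by
  unfold hb
  rw [Nat.testBit_mod_two_pow, ← Nat.shiftRight_eq_div_pow, Nat.testBit_shiftRight]
  simp [ht]

theorem eq5 {a b : Nat} (ha : a < 2 ^ 5) (hb : b < 2 ^ 5)
    (h : ∀ t < 5, a.testBit t = b.testBit t) : a = b := by
  refine Nat.eq_of_testBit_eq fun t => ?_
  by_cases ht : t < 5
  · exact h t ht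
  · rw [Nat.testBit_eq_false_of_lt (lt_of_lt_of_le ha
      (Nat.pow_le_pow_right (by norm_num) (by omega))),
      Nat.testBit_eq_false_of_lt (lt_of_lt_of_le hb
      (Nat.pow_le_pow_right (by norm_num) (by omega)))]

theorem ba_hb : ∀ i < 4, ∀ t < 5, 30 ≤ ba i (30 + t) ∧ ba i (30 + t) < 35 := by decide +kernel

theorem ba_hb5 : ∀ t < 5, ba 5 (30 + t) = 30 + t := by decide +kernel

theorem hb_tau (i m : Nat) (hi : i < 4) : hb (tau i m) = tbF i (hb m) := by
  refine eq5 (hb_lt _) (hb_lt _) fun t ht => ?_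
  obtain ⟨h1, h2⟩ := ba_hb i hi t ht
  rw [hb_bit _ _ ht, tbF, hb_bit _ _ ht, tau_bit _ _ _ (by omega) (by omega),
    tau_bit _ _ _ (by omega) (by omega)]
  obtain ⟨u, hu⟩ : ∃ u, ba i (30 + t) = 30 + u := ⟨ba i (30 + t) - 30, by omega⟩
  rw [hu, ← hb_bit _ _ (by omega : u < 5), Nat.testBit_mul_two_pow]
  simp

theorem hb_tau5 (m : Nat) : hb (tau 5 m) = hb m := by
  refine eq5 (hb_lt _) (hb_lt _) fun t ht => ?_
  rw [hb_bit _ _ ht, hb_bit _ _ ht, tau_bit _ _ _ (by omega) (by omega), ba_hb5 t ht]

/-- Values of the functional. -/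
def gz (A B C D : ℤ) (i j t : Nat) : ℤ :=
  (if i < 6 ∧ j < 6 then (if 1 ≤ nwr i j t then A else 0) + (if nwr i j t = 1 then B else 0)
    else 0) + (if i = 6 then C else 0) + (if j = 6 then C else 0) - D

/-- The functional on masks of seven vertices. -/
def fz (A B C D : ℤ) (m : Nat) : ℤ :=
  if rt m = 803 then gz A B C D (cde (lk5 m)) (cde (lk6 m)) (hb m) else 0

theorem cde_le (l : Nat) : cde l < 7 := by
  unfold cde
  repeat' split
  all_goals norm_num

/-! Invariance under the generators. -/

/-- Action on the codes of the generator `[1, 3]`. -/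
def s13 (i : Nat) : Nat := ([0, 2, 1, 4, 3, 5, 6] : List Nat).getD i 6
/-- Action on the codes of the generator `[0, 2]`. -/
def s02 (i : Nat) : Nat := ([1, 0, 3, 2, 4, 5, 6] : List Nat).getD i 6

theorem rt13 : ∀ r < 1024, (rt (awl [1, 3] r) == 803) = (r == 803) := by decide +kernel
theorem rt02 : ∀ r < 1024, (rt (awl [0, 2] r) == 803) = (r == 803) := by decide +kernel
theorem cde13 : ∀ l < 1024, cde (al5 [1, 3] l) = s13 (cde l) := by decide +kernel
theorem cde02 : ∀ l < 1024, cde (al5 [0, 2] l) = s02 (cde l) := by decide +kernel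
theorem nwr13 : ∀ i < 6, ∀ j < 6, ∀ t < 32, nwr (s13 i) (s13 j) (tbF 3 (tbF 1 t)) = nwr i j t := by
  decide +kernel
theorem nwr02 : ∀ i < 6, ∀ j < 6, ∀ t < 32, nwr (s02 i) (s02 j) (tbF 2 (tbF 0 t)) = nwr i j t := by
  decide +kernel
theorem s13_lt : ∀ i < 7, (s13 i < 6 ↔ i < 6) ∧ (s13 i = 6 ↔ i = 6) := by decide +kernel
theorem s02_lt : ∀ i < 7, (s02 i < 6 ↔ i < 6) ∧ (s02 i = 6 ↔ i = 6) := by decide +kernel
theorem nwr_comm : ∀ i < 6, ∀ j < 6, ∀ t < 32, nwr j i t = nwr i j t := by decide +kernel

theorem gz_congr (A B C D : ℤ) {i j t i' j' t' : Nat} (h1 : i' < 6 ↔ i < 6) (h2 : j' < 6 ↔ j < 6)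
    (h3 : i' = 6 ↔ i = 6) (h4 : j' = 6 ↔ j = 6) (h5 : i < 6 → j < 6 → nwr i' j' t' = nwr i j t) :
    gz A B C D i' j' t' = gz A B C D i j t := by
  unfold gz
  rw [if_congr h3 rfl rfl, if_congr h4 rfl rfl]
  congr 3
  by_cases h : i < 6 ∧ j < 6
  · rw [if_pos h, if_pos ⟨h1.2 h.1, h2.2 h.2⟩, h5 h.1 h.2]
  · rw [if_neg h, if_neg (fun hh => h ⟨h1.1 hh.1, h2.1 hh.2⟩)]

theorem gz_comm (A B C D : ℤ) {i j t : Nat} (ht : t < 32) :
    gz A B C D j i t = gz A B C D i j t := by
  unfold gz
  by_cases h : i < 6 ∧ j < 6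
  · rw [if_pos h, if_pos ⟨h.2, h.1⟩, nwr_comm i h.1 j h.2 t ht]
    ring
  · rw [if_neg h, if_neg (fun hh => h ⟨hh.2, hh.1⟩)]
    ring

theorem fz_inv (A B C D : ℤ) : ∀ W ∈ gensF, ∀ m, Adm m → fz A B C D (awl W m) = fz A B C D m := by
  intro W hW m _
  have key : ∀ (W : List Nat) (s : Nat → Nat) (b : Nat → Nat), w4 W = true →
      (∀ r < 1024, (rt (awl W r) == 803) = (r == 803)) →
      (∀ l < 1024, cde (al5 W l) = s (cde l)) →
      (hb (awl W m) = b (hb m)) →
      (∀ i < 6, ∀ j < 6, ∀ t < 32, nwr (s i) (s j) (b t) = nwr i j t) →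
      (∀ i < 7, (s i < 6 ↔ i < 6) ∧ (s i = 6 ↔ i = 6)) →
      fz A B C D (awl W m) = fz A B C D m := by
    intro W s b hw h1 h2 h3 h4 h5
    unfold fz
    rw [rt_awl W m hw, lk5_awl W m hw, lk6_awl W m hw, h2 _ (lk5_lt m), h2 _ (lk6_lt m), h3]
    have e := h1 (rt m) (rt_lt m)
    have e' : rt (awl W (rt m)) = 803 ↔ rt m = 803 := by
      constructor
      · intro h
        rw [h] at e
        simpa using e.symm
      · intro h
        have : (rt m == 803) = true := by simp [h]
        rw [this] at e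
        simpa using e
    rw [if_congr e' rfl rfl]
    split
    · have a1 := h5 _ (cde_le (lk5 m))
      have a2 := h5 _ (cde_le (lk6 m))
      exact gz_congr A B C D a1.1 a2.1 a1.2 a2.2 (fun x y => h4 _ x _ y _ (hb_lt m))
    · rfl
  have hmem : W = [1, 3] ∨ W = [0, 2] ∨ W = [5] := by
    simpa [gensF] using hW
  rcases hmem with rfl | rfl | rfl
  · refine key [1, 3] s13 (fun t => tbF 3 (tbF 1 t)) rfl rt13 cde13 ?_ nwr13 s13_lt
    change hb (tau 3 (tau 1 m)) = _
    rw [hb_tau _ _ (by norm_num), hb_tau _ _ (by norm_num)]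
  · refine key [0, 2] s02 (fun t => tbF 2 (tbF 0 t)) rfl rt02 cde02 ?_ nwr02 s02_lt
    change hb (tau 2 (tau 0 m)) = _
    rw [hb_tau _ _ (by norm_num), hb_tau _ _ (by norm_num)]
  · change fz A B C D (tau 5 m) = _
    unfold fz
    rw [rt_tau5, lk5_tau5, lk6_tau5, hb_tau5]
    split
    · exact gz_comm A B C D (hb_lt m)
    · rfl

theorem fz_Inv7 (A B C D : ℤ) : Inv7 (fam treeF.tr (fz A B C D)) :=
  Inv7.fam invTF (fz_inv A B C D)

theorem len_treeF : treeF.tr.length = 252 := by decide +kernel

/-! Kernel version. -/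

/-- Code of a link. -/
noncomputable def cdK (l : Nat) : Nat :=
  Bool.rec (motive := fun _ => Nat)
    (Bool.rec (motive := fun _ => Nat)
      (Bool.rec (motive := fun _ => Nat)
        (Bool.rec (motive := fun _ => Nat)
          (Bool.rec (motive := fun _ => Nat)
            (Bool.rec (motive := fun _ => Nat) 6 5 (Nat.beq l 236)) 4 (Nat.beq l 50)) 3
              (Nat.beq l 385)) 2 (Nat.beq l 577)) 1 (Nat.beq l 522)) 0 (Nat.beq l 276)

theorem rec_beq (a b x y : Nat) :
    Bool.rec (motive := fun _ => Nat) x y (Nat.beq a b) = if a = b then y else x := by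
  cases h : Nat.beq a b
  · rw [if_neg]
    intro hh
    rw [hh, Nat.beq_refl] at h
    exact absurd h (by simp)
  · rw [if_pos (Nat.eq_of_beq_eq_true h)]

theorem cdK_eq (l : Nat) : cdK l = cde l := by
  unfold cdK cde
  simp only [rec_beq]

/-- Number of wrong roots (0, 1, or 2 = more), two bits for each entry `32 (6 i + j) + t`. -/
def nwT : Nat := 2494702433056810843947995833231320660464206381390215836948921115875454700077654737805047076559252996735164190112777478286627467161807208947589320933614610765975680329432268510828049291103656284766876324289573755782464671308244937221833921461306960016685684451851063158652475911398861151478493292465709741065166929339687872698871828213566246812674105458630249605362618728196141842321928101475554344583156988580222839381058656336764917581523253965402969697734105827604950942540510091495121809331065283297094786701297731799293217781289454898553834705810090080034643450765301385495080144130338216584488234385116699242100541168237459636613907534465338950570904007976571268562153984206451300314228048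

theorem nwT_spec : ∀ i < 6, ∀ j < 6, ∀ t < 32,
    Nat.land (Nat.shiftRight nwT (Nat.mul 2 (Nat.add (Nat.mul 32 (Nat.add (Nat.mul 6 i) j)) t))) 3 =
      min (nwr i j t) 2 := by decide +kernel

/-- Value for two coded vertices with number `n` of wrong roots. -/
noncomputable def vKn (A B X n : Nat) : Nat :=
  Bool.rec (motive := fun _ => Nat)
    (Bool.rec (motive := fun _ => Nat) (Nat.add X A) (Nat.add X (Nat.add A B))
      (Nat.beq n 1)) X (Nat.beq n 0)

/-- Values for the codes `i`, `j` and the root bits `t`: `X` is the value without anything wrong. -/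
noncomputable def vK (A B C X i j t : Nat) : Nat :=
  Bool.rec (motive := fun _ => Nat)
    (Bool.rec (motive := fun _ => Nat) (Nat.add X (Nat.add C C)) (Nat.add X C) (Nat.ble j 5))
    (Bool.rec (motive := fun _ => Nat) (Nat.add X C)
      (fc (Nat.land (Nat.shiftRight nwT
            (Nat.mul 2 (Nat.add (Nat.mul 32 (Nat.add (Nat.mul 6 i) j)) t))) 3) (vKn A B X))
      (Nat.ble j 5))
    (Nat.ble i 5)

theorem rec_ble (a b x y : Nat) :
    Bool.rec (motive := fun _ => Nat) x y (Nat.ble a b) = if a ≤ b then y else x := by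
  cases h : Nat.ble a b
  · rw [if_neg]
    intro hh
    rw [Nat.ble_eq_true_of_le hh] at h
    exact absurd h (by simp)
  · rw [if_pos (Nat.le_of_ble_eq_true h)]

theorem vK_eq (A B C D X OFF : Nat) (hX : X + D = OFF) {i j t : Nat} (hi : i < 7) (hj : j < 7)
    (ht : t < 32) : ((vK A B C X i j t : Nat) : ℤ) = gz A B C D i j t + OFF := by
  unfold vK gz
  simp only [rec_ble, fc_eq]
  by_cases h1 : i < 6
  · rw [if_pos (by omega : i ≤ 5), if_neg (by omega : ¬ i = 6)]
    by_cases h2 : j < 6
    · rw [if_pos (by omega : j ≤ 5), if_pos ⟨h1, h2⟩, if_neg (by omega : ¬ j = 6),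
        nwT_spec i h1 j h2 t ht]
      unfold vKn
      rw [rec_beq, rec_beq]
      by_cases h3 : nwr i j t = 0
      · rw [if_pos (by omega), if_neg (by omega), if_neg (by omega)]
        push_cast [← hX]
        ring
      · rw [if_neg (by omega), if_pos (by omega : 1 ≤ nwr i j t)]
        by_cases h4 : nwr i j t = 1
        · rw [if_pos (by omega), if_pos h4]
          simp only [Nat.add_eq]
          push_cast [← hX]
          ring
        · rw [if_neg (by omega), if_neg h4]
          simp only [Nat.add_eq]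
          push_cast [← hX]
          ring
    · rw [if_neg (by omega : ¬ j ≤ 5), if_neg (fun h => h2 h.2 : ¬ (i < 6 ∧ j < 6)),
        if_pos (by omega : j = 6)]
      simp only [Nat.add_eq]
      push_cast [← hX]
      ring
  · rw [if_neg (by omega : ¬ i ≤ 5), if_neg (fun h => h1 h.1 : ¬ (i < 6 ∧ j < 6)),
      if_pos (by omega : i = 6)]
    by_cases h2 : j < 6
    · rw [if_pos (by omega : j ≤ 5), if_neg (by omega : ¬ j = 6)]
      simp only [Nat.add_eq]
      push_cast [← hX]
      ring
    · rw [if_neg (by omega : ¬ j ≤ 5), if_pos (by omega : j = 6)]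
      simp only [Nat.add_eq]
      push_cast [← hX]
      ring

/-- Kernel version of the functional: natural number valued, offset `OFF`, `X = OFF - D`. -/
noncomputable def fK (A B C X OFF m : Nat) : Nat :=
  Bool.rec (motive := fun _ => Nat) OFF
    (fc (cdK (Nat.land (Nat.shiftRight m 10) 1023)) (fun i =>
      fc (cdK (Nat.land (Nat.shiftRight m 20) 1023)) (fun j =>
        vK A B C X i j (Nat.land (Nat.shiftRight m 30) 31))))
    (Nat.beq (Nat.land m 1023) 803)

theorem fK_eq (A B C D X OFF : Nat) (hX : X + D = OFF) (m : Nat) :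
    ((fK A B C X OFF m : Nat) : ℤ) = fz A B C D m + OFF := by
  have e0 : Nat.land m 1023 = rt m := land_mod m 10
  have e5 : Nat.land (Nat.shiftRight m 10) 1023 = lk5 m := by
    rw [shift_div]; exact land_mod _ 10
  have e6 : Nat.land (Nat.shiftRight m 20) 1023 = lk6 m := by
    rw [shift_div]; exact land_mod _ 10
  have e7 : Nat.land (Nat.shiftRight m 30) 31 = hb m := by
    rw [shift_div]; exact land_mod _ 5
  unfold fK fz
  rw [e0, e5, e6, e7, rec_beq, fc_eq, fc_eq, cdK_eq, cdK_eq]
  by_cases h : rt m = 803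
  · rw [if_pos h, if_pos h]
    exact vK_eq A B C D X OFF hX (cde_le _) (cde_le _) (hb_lt m)
  · rw [if_neg h, if_neg h]
    simp

/-- The kernel version of the symmetrised functional. -/
theorem famF_eq (A B C D X OFF : Nat) (hX : X + D = OFF) (m acc : Nat) :
    ((WT.famK treeF (fK A B C X OFF) m acc : Nat) : ℤ) =
      acc + fam treeF.tr (fz A B C D) m + 252 * OFF := by
  have := WT.famK_int treeF (fK A B C X OFF) (fz A B C D) (OFF : ℤ) m acc
    (fun U _ => fK_eq A B C D X OFF hX _)
  rw [len_treeF] at this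
  exact_mod_cast this

/-! Relation with the real valued functional. -/

theorem lk6_5 (m : Nat) : lk6 m = m / 2 ^ 20 % 2 ^ 10 := rfl

/-- The integer functional is the symmetrised real functional. -/
theorem fz_FT {A B C D : ℕ} {K a lam c : ℝ} (hA : (A : ℝ) = K) (hB : (B : ℝ) = K * a)
    (hC : 2 * (C : ℝ) = K * lam) (hD : (D : ℝ) = K * c) (m : Nat) :
    ((fz A B C D m : ℤ) : ℝ) = K / 2 * (FT a lam c m + FT a lam c (tau 5 m)) := by
  have e1 : FT a lam c m = if rt m = 803 then gT a lam c (cde (lk5 m)) (cde (lk6 m)) (hb m)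
      else 0 := rfl
  have e2 : FT a lam c (tau 5 m) = if rt (tau 5 m) = 803 then
      gT a lam c (cde (lk5 (tau 5 m))) (cde (lk6 (tau 5 m))) (hb (tau 5 m)) else 0 := rfl
  rw [e1, e2, rt_tau5, lk5_tau5, lk6_tau5, hb_tau5]
  unfold fz
  by_cases h : rt m = 803
  · rw [if_pos h, if_pos h, if_pos h]
    have hi := cde_le (lk5 m)
    have hj := cde_le (lk6 m)
    have ht := hb_lt m
    generalize cde (lk5 m) = i at *
    generalize cde (lk6 m) = j at *
    generalize hb m = t at *
    unfold gz gT
    by_cases hh : i < 6 ∧ j < 6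
    · have hh' : j < 6 ∧ i < 6 := ⟨hh.2, hh.1⟩
      rw [nwr_comm i hh.1 j hh.2 t ht]
      simp only [if_pos hh, if_pos hh', if_neg (by omega : ¬ i = 6), if_neg (by omega : ¬ j = 6)]
      push_cast
      rw [hA, hB, hD]
      by_cases h1 : 1 ≤ nwr i j t <;> by_cases h2 : nwr i j t = 1 <;>
        simp only [h1, h2, if_true, if_false, le_refl] <;> ring
    · have hh' : ¬ (j < 6 ∧ i < 6) := fun x => hh ⟨x.2, x.1⟩
      simp only [if_neg hh, if_neg hh']
      push_cast
      rw [hD]
      have hC' : (C : ℝ) = K * lam / 2 := by linarith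
      rw [hC']
      by_cases h1 : i = 6 <;> by_cases h2 : j = 6 <;>
        simp only [h1, h2, if_true, if_false] <;> ring
  · rw [if_neg h, if_neg h, if_neg h]
    simp

end KC
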