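import Pool.Agent.Helper18.KT.FZ
import Pool.Agent.Helper35.KT.T6

set_option autoImplicit false

/-!
The conclusion from the certificate for the functional in table form.
-/

namespace KC

open KF

/-- Certificate for the functional `FT a lam c`: families `S` valid for thinned samples, the
integer form `fz A B C D` of the functional. -/
theorem thin_FZ {p : ℝ} (hp : 0 ≤ p) {S : ℕ → ℤ} {A B C D δ : ℕ} {K a lam c : ℝ}
    (hK : 0 < K) (hA : (A : ℝ) = K) (hB : (B : ℝ) = K * a) (hC : 2 * (C : ℝ) = K * lam)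
    (hD : (D : ℝ) = K * c) (hS : TOK p S) (iS : Inv7 S) (hδ : 0 < δ)
    (hpt : ∀ m ∈ KE.reps7, S m + fam treeF.tr (fz A B C D) m + δ ≤ 0) :
    ∃ θ : ℝ, 0 < θ ∧ ∀ (n : ℕ) (E : Fin n → Fin n → Fin n → Bool) (w : Fin n → ℝ), Opt E w →
      L - θ < dens E w → p < dens E w →
      Ev 7 w (fun φ => KT.Th (KT.pe E (p / dens E w) φ) (KT.FT a lam c)) < 0 := by
  have hg : ∀ x < 2 ^ 35, ((fz A B C D x : ℤ) : ℝ) =
      K / 2 * (KT.FT a lam c x + KT.FT a lam c (tau 5 x)) :=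
    fun x _ => fz_FT hA hB hC hD x
  obtain ⟨θ, hθ, h⟩ := thin_final hp invTF hS iS (fz_Inv7 _ _ _ _)
    (show (0 : ℝ) < K / 2 by positivity) hδ hg hpt
  refine ⟨θ, hθ, fun n E w ho hd hpd => ?_⟩
  have h1 := h n E w ho hd hpd
  rw [← Tr_Th, Tr_add, Tr_tau ho.free ho.wt _ (by norm_num : 5 < 6)] at h1
  rw [← Tr_Th]
  linarith

end KC
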