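import Pool.Agent.Helper13.KC.WT

set_option autoImplicit false
set_option maxRecDepth 100000

/-!
Transversal of the stabiliser (order 20) of the labelled type with root mask 803.
-/

namespace KC

open WT

/-- Tree of the transversal. -/
def treeF : WT :=
  (B 2 (B 3 (B 0 E (B 4 (B 2 (B 3 (B 0 (B 4 E E) (B 4 (B 3 (S 1 (B 2 E E) E) E) E)) (S 5 (B 4 (B 3 (B 0 (B 4 (B 3 E E) (B 3 E E)) (B 4 (B 3 E E) E)) (S 1 (B 2 (B 3 (B 0 E E) E) E) E)) E) E)) (B 1 (B 2 (B 1 (B 4 (B 2 E E) E) (B 4 E (S 3 (B 4 (B 2 (B 1 (B 2 (B 3 (B 4 E (B 2 (B 3 E (S 5 (B 4 (B 2 E E) E) E)) E)) (B 4 E E)) E) E) (B 1 (S 0 (B 3 E E) E) E)) E) E))) E) E)) E)) (B 4 (B 1 (B 0 (B 3 (B 4 E E) (B 4 E E)) E) E) (S 5 (B 4 (B 3 (B 2 (B 3 (B 4 (B 1 (B 2 (B 4 (B 1 E E) (B 3 (B 2 (B 1 (B 4 (B 2 (B 1 (B 4 E E) E) E) (B 0 (B 3 E E) E)) E) (B 4 (B 3 (B 2 (B 1 (B 2 (B 1 E (S 3 (B 2 (B 3 E E) E) (S 5 (B 4 (B 1 E E) E) E))) E) (B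 4 (B 3 (B 4 (B 3 (B 0 E E) E) E) (S 5 (B 4 (B 0 E E) E) E)) E)) E) (B 0 E (S 5 (B 4 (B 2 (B 3 (B 2 (B 1 (B 0 (B 1 E E) E) E) E) E) (B 1 (B 2 (B 1 E E) E) E)) E) E))) E)) (S 5 (B 4 E (S 1 (B 2 (S 1 (B 4 E E) E) E) E)) E))) E) (B 0 (B 3 E E) E)) E) (B 4 E E)) (B 4 E E)) (B 2 (B 1 (B 2 (B 1 E E) E) E) E)) E) E))) (B 1 (B 0 (B 3 (B 4 (B 3 (B 4 E (B 0 E E)) (B 0 E E)) E) (B 4 E (S 2 (B 3 (B 4 (B 0 (B 3 E E) E) E) E) E))) E) (B 4 (B 3 (B 2 (B 1 (B 0 (B 4 (B 3 (B 4 (B 2 E (B 1 E E)) E) E) (B 1 (S 5 (B 4 (B 1 (B 0 (B 3 (B 4 (B 2 (B 3 (B 4 (B 0 (B 1 (B 0 (B 4 E (B 3 (B 4 (B 3 (B 0 E (B 4 (S 5 (B 4 E E) E) E)) E) E) E)) E) (S 2 (B 3 (B 0 E E) E) E)) (B 3 (B 4 E E) E)) (B 0 (S 5 (B 4 (B 2 (B 1 (B 2 (B 4 E (B 3 (B 2 (B 1 (B 0 (S 2 (B 3 E E) E) E) (B 4 (B 1 (B 2 (B 1 (B 4 E E) (S 5 (B 4 (B 0 (B 3 (B 4 (B 3 (B 2 (B 1 (B 0 (B 1 E E) E) (S 3 (B 4 (B 2 (B 3 (B 0 E E) (S 1 (B 0 (B 1 (S 2 (B 1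 (B 2 E E) E) E) E) E) E)) (B 1 (B 0 (B 3 E E) E) E)) E) E)) (S 1 (B 2 E E) E)) (B 2 (B 1 (B 0 (B 1 (S 4 (B 2 (B 1 E (S 3 (B 2 E E) E)) E) E) E) E) E) E)) E) E) E) E) E)) (S 0 (B 3 E E) E)) E) E)) (B 4 (B 3 (B 2 (B 1 (B 0 (B 1 E E) (B 4 E E)) (S 5 (B 4 (B 0 (B 1 (B 0 E (S 2 (B 3 (B 2 (B 4 (B 1 (B 2 (S 3 (B 2 E E) E) E) (S 0 (B 1 (B 0 (B 4 (S 3 (B 4 E E) E) E) (S 2 (B 1 E E) E)) E) E)) E) (B 4 (B 1 (B 2 (S 0 (B 3 E E) E) E) (S 0 (B 3 E E) E)) E)) (S 1 (B 0 E E) E)) E)) E) (B 1 (B 2 (B 3 (B 2 E (B 4 E E)) E) E) E)) E) E)) E) (S 5 (B 4 (B 1 (B 0 (B 1 (B 4 E E) E) E) (B 0 (B 1 E E) E)) E) E)) E)) E)) E) E) (B 3 (B 4 E (B 0 (B 4 (B 3 E E) E) E)) E)) E) E) E)) E) (B 3 E E)) E) E) E) (B 0 (B 3 (B 4 (B 0 (S 5 (B 4 E E) E) (B 1 (S 5 (B 4 (B 2 (S 1 (B 0 E E) E) E) E) E) E)) E) E) E)) E) E) E)) E) (B 4 E E)) E) E) E)))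

/-- Generators of the stabiliser. -/
def gensF : List (List Nat) := [[1, 3], [0, 2], [5]]

/-- Certificate. -/
def certsF : List (List (Nat × List Nat)) :=
  [[(1, [1]), (0, [1]), (3, []), (2, []), (5, [1]), (4, [1]), (7, []), (6, []), (9, []), (8, []), (111, [0, 1]), (34, [0, 1, 0, 1]), (17, []), (14, []), (13, []), (18, []), (19, []), (12, []), (15, []), (16, []), (80, [0, 1, 0, 1, 0, 2]), (79, [0, 1, 0, 1, 0, 2]), (78, [0, 1, 0, 1, 0, 2]), (126, [1, 0, 1, 0]), (46, [0, 1]), (39, [0, 1, 0, 1]), (114, [0, 1, 0, 1, 0]), (105, [0, 1, 0]), (47, [0, 1]), (180, [1, 0, 1, 0, 2]), (181, [1, 0, 1, 0, 2]), (177, [1, 0, 1, 2]), (185, [0, 2]), (186, [0, 2]), (11, [1, 0, 1, 0]), (216, [1, 0, 2]), (183, [1, 0, 2]), (171, [1, 0, 1]), (174, [0]), (25, [1, 0, 1, 0]), (176, [0, 1, 2]), (182, [1, 0, 1, 2]), (118, [1]), (121, [0, 1, 0]), (45, [0]), (44, [0]), (24, [1, 0]), (28, [1, 0]), (101,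 [1]), (50, [1]), (49, [1]), (102, [0, 1]), (97, []), (98, [0]), (59, [0, 1, 0, 1]), (77, [1, 0, 1]), (103, [1, 0, 1]), (64, [0, 1, 0, 1]), (63, [0, 1, 0, 1, 0]), (54, [1, 0, 1, 0]), (220, [1, 0, 1, 0, 2]), (211, [1, 0, 1, 0, 2]), (221, [0, 1, 0, 1, 2]), (58, [0, 1, 0, 1, 0]), (57, [1, 0, 1, 0]), (95, [0, 1, 0, 1, 2]), (214, [1, 0, 2]), (217, [2]), (222, [0, 2]), (209, [1, 2]), (218, [1, 2]), (213, [2]), (210, [0, 1, 2]), (219, [0, 1, 2]), (207, [1]), (204, [0, 1, 0]), (104, [1, 0, 1, 0]), (55, [1, 0, 1]), (22, [0, 1, 0, 1, 0, 2]), (21, [0, 1, 0, 1, 0, 2]), (20, [0, 1, 0, 1, 0, 2]), (205, [1, 0, 2]), (223, [0, 2]), (212, [1, 0, 1, 0, 2]), (170, [0, 1, 0, 1]), (173, [1, 0]), (191, [0, 1, 0, 1, 0]), (190, [0, 1, 0, 1, 0]), (189, [0, 1, 0, 1]), (175, [1]), (228, [0]), (188, [0, 1, 0, 1]), (172, [0, 1, 0]), (187, [0, 1]), (150, [0, 1, 0, 1, 2]), (65, [1, 0, 1, 0, 2]), (142, [0, 1,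 0, 1, 2]), (52, []), (53, [0]), (100, [1]), (99, [1]), (48, [1]), (51, [1, 0]), (56, [1, 0, 1]), (76, [0, 1, 0, 1]), (27, [0, 1, 0]), (107, [0]), (106, [0]), (109, [0]), (108, [0]), (113, [0]), (10, [1, 0]), (251, [1, 0]), (110, [0]), (26, [0, 1, 0, 1, 0]), (184, [1, 0, 1, 2]), (178, [0, 1, 0, 1, 2]), (179, [0, 1, 0, 1, 2]), (42, [1]), (120, [1]), (119, [1]), (43, [0, 1, 0]), (128, []), (124, [0]), (123, [0]), (127, []), (23, [0, 1, 0, 1]), (125, []), (122, []), (130, []), (129, []), (242, []), (243, []), (244, []), (245, [1]), (202, [1, 2]), (224, [1, 2]), (225, [2]), (226, [0, 2]), (215, [1, 0, 1, 0, 2]), (156, [0, 1, 2]), (208, [1, 0, 1, 0, 2]), (96, [1, 0, 1, 0, 2]), (144, [1]), (143, [1]), (151, [0, 1]), (237, [0, 1]), (203, [0, 2]), (206, [0, 2]), (227, [1, 2]), (94, [1, 0, 1, 0, 2]), (145, [1, 0]), (200, [1]), (199, []), (198, []), (197, []), (140, [1, 0, 2]), (196, []),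 (162, []), (163, []), (164, [1]), (201, [0, 1, 0, 1]), (158, []), (159, []), (160, [1]), (166, []), (165, []), (167, [2]), (168, [2]), (169, [2]), (84, [1, 0, 1, 0]), (37, [1, 0, 1]), (92, [0, 1, 0]), (85, [0, 1]), (38, [0]), (89, [1]), (40, [1, 0, 2]), (31, [1, 0, 1, 2]), (116, [1, 0, 1, 0, 2]), (117, [1, 0, 1, 0, 2]), (29, [0, 1, 0, 1, 2]), (30, [0, 1, 0, 1, 2]), (41, [1, 0, 1, 2]), (36, [0, 1, 2]), (115, [1, 0, 1, 2]), (32, [0, 2]), (33, [0, 2]), (93, [1, 0]), (91, [1, 0, 1, 0]), (88, [1, 0, 1, 0]), (87, [0, 1, 0, 1, 0]), (86, [0, 1, 0, 1, 0]), (192, [2]), (193, [2]), (194, [2]), (238, [1, 0, 1]), (157, []), (155, []), (154, []), (153, []), (152, [1]), (161, [1, 0, 1, 0]), (135, [1, 2]), (147, [0, 2]), (75, [0, 1, 0]), (81, [0, 1, 2]), (148, [0, 2]), (74, [1]), (141, [0, 1, 0, 1, 2]), (69, [1, 2]), (72, [1, 0, 2]), (61, [0, 1, 0, 1, 2]), (83, [0, 1, 0, 1, 2]), (71, [2]), (66,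 [0, 1, 2]), (139, [0, 1, 0, 1, 2]), (35, [0, 1, 2]), (67, [2]), (70, [1, 2]), (73, [1, 0, 2]), (60, [0, 1, 0, 1, 2]), (62, [1, 0, 1, 0, 2]), (68, [0, 2]), (82, [0, 2]), (136, [1, 2]), (137, [2]), (138, [0, 2]), (149, [1, 2]), (90, [0]), (229, [2]), (230, [2]), (231, [2]), (232, [2]), (236, [0, 1, 0, 2]), (234, [2]), (235, [2]), (233, [0, 1, 0, 2]), (146, [1, 0]), (195, [1, 0, 1]), (250, [1, 0]), (246, [1]), (247, [0]), (131, []), (132, []), (133, []), (134, [1]), (240, [1]), (241, [0]), (249, [1]), (248, [1]), (239, [0, 1]), (112, [0, 1])],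
   [(105, []), (106, [1]), (47, [1, 0]), (114, []), (116, []), (115, [1]), (41, [1, 0]), (36, [0, 1]), (123, [1, 0, 1]), (11, [0]), (108, [1]), (9, [0]), (61, [0, 2]), (62, [2]), (67, [0, 1, 2]), (91, [1]), (90, [0, 1, 0, 1]), (70, [0, 1, 2]), (92, []), (93, [0]), (73, [0, 2]), (72, [0, 2]), (83, [1, 0, 1, 2]), (117, [0]), (40, [0]), (29, [0]), (28, [0]), (107, [1, 0]), (26, [0]), (25, [0]), (127, [0, 1, 0]), (46, [1, 0]), (39, []), (125, [1]), (124, [1]), (126, [1]), (7, [1, 0]), (249, [1, 0]), (246, [0, 1]), (32, []), (24, [0]), (6, [0, 1]), (113, [1]), (44, [1]), (43, [1]), (128, [0, 1, 0, 1]), (31, [0, 1]), (2, [0, 1]), (103, []), (104, [0]), (55, [0]), (56, []), (57, [0]), (54, []), (53, []), (50, [0]), (51, []), (52, [0]), (59, [0]), (58, [0]), (80, [1, 0]), (12, [0, 2]), (13, [2]), (98, [1]), (65, []), (64, []), (99, [0]), (14, [1, 0, 2]), (78, []), (79, [0]), (17, [1,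 0, 2]), (100, []), (21, [0, 2]), (20, [0, 2]), (244, [0, 1, 0, 2]), (156, [1, 0, 1, 0]), (77, []), (76, []), (68, []), (69, [0]), (60, [0, 1]), (202, [0, 1, 0, 1, 0, 2]), (247, [1, 0, 1]), (22, [1, 0, 1, 2]), (248, [1, 0]), (250, [0, 1]), (146, [0, 1]), (240, [0]), (239, []), (237, []), (16, [1, 0, 1, 0]), (15, [1]), (18, []), (19, [0]), (242, [0, 1, 0, 2]), (97, [1, 2]), (243, [0, 1, 0, 2]), (95, [1, 2]), (63, [1]), (66, [0]), (71, []), (102, []), (101, []), (48, []), (49, [0]), (0, []), (1, [1]), (27, [0, 1]), (10, [1]), (251, [1]), (120, [1]), (112, [0]), (111, [0]), (42, [1]), (3, []), (5, [1]), (4, []), (23, [0]), (119, [0]), (118, [0]), (110, [1]), (122, [1]), (121, [1]), (8, [1, 0, 1]), (34, [1]), (33, [1]), (35, [1]), (30, [0, 1, 0]), (45, [1, 0, 1, 0]), (150, [1, 0]), (131, [1]), (130, [1]), (144, [0, 1]), (138, [0, 1]), (149, []), (136, []), (135, []), (151, []), (133,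 [1, 0]), (140, []), (139, []), (145, []), (143, []), (142, []), (132, [1, 0]), (141, []), (86, [1, 0]), (241, [1]), (245, [0, 1]), (134, []), (129, [0, 1]), (137, []), (152, [2]), (153, [2]), (154, [2]), (155, [2]), (75, [0, 1, 0, 1]), (157, [2]), (158, [2]), (159, [2]), (160, [2]), (161, [2]), (234, [1, 2]), (168, [1, 2]), (167, [2]), (231, [1, 2]), (166, [2]), (164, [2]), (163, [1, 2]), (201, [0, 1, 0, 1, 2]), (171, []), (170, []), (188, []), (189, []), (190, []), (191, []), (177, []), (176, []), (184, [0]), (216, [1, 0, 1, 0]), (185, []), (186, [0]), (183, [1]), (182, [1]), (178, [0]), (180, []), (181, [0]), (228, [0, 1, 0, 1]), (172, []), (173, []), (174, []), (175, []), (195, [1, 0, 1, 2]), (199, [1, 0, 2]), (200, [2]), (192, [1, 0, 1, 2]), (229, [2]), (230, [0, 2]), (235, [0, 1, 2]), (193, [0, 1, 2]), (194, [2]), (169, [1, 0, 1, 0, 2]), (81, [0, 1, 0, 1, 0, 2]), (223, [1,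 0, 1]), (215, [0, 1, 0]), (224, [0, 1, 0]), (227, [0, 1, 0]), (226, [0, 1, 0, 1, 0]), (225, [1, 0, 1, 0]), (210, []), (209, []), (218, []), (222, [1]), (214, []), (213, []), (204, [0, 1, 0]), (179, [0, 1, 0, 1]), (221, [0, 1]), (211, []), (220, []), (219, []), (217, [1, 0]), (212, [1]), (203, [1, 0, 1]), (205, [0, 1, 0]), (208, [0, 1, 0, 1]), (207, [0, 1, 0, 1, 0]), (206, [0, 1, 0]), (187, [1, 0, 1, 0]), (196, [2]), (197, [0, 2]), (165, [1, 2]), (233, []), (232, []), (162, [1, 2]), (198, [1, 0, 2]), (236, [2]), (89, []), (238, [2]), (88, []), (87, [0]), (147, [1]), (94, [0, 1, 0, 2]), (96, [0, 1, 0, 2]), (74, [0, 1, 0, 2]), (148, [1, 0]), (38, [1, 0]), (82, [1, 0, 1]), (84, [0, 1]), (37, [0, 1]), (85, [1, 0]), (109, [1])],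
   [(1, []), (0, []), (105, [0]), (27, [0, 1]), (111, [0]), (10, []), (9, []), (8, []), (7, []), (6, []), (5, []), (25, []), (65, [1, 0, 2]), (98, [1, 2]), (53, [0, 1, 2]), (15, [2]), (16, [2]), (95, [0, 1]), (18, [2]), (19, [2]), (63, [0, 2]), (64, [1, 2]), (59, [1, 2]), (112, []), (108, [1]), (11, []), (114, [1, 0]), (3, [1, 0]), (107, [1]), (41, [1, 0]), (36, [0]), (35, []), (33, []), (32, []), (39, []), (31, []), (30, [0]), (161, [1, 0, 1, 2]), (154, [0, 1, 2]), (34, []), (115, [1, 0]), (29, [0, 1]), (118, []), (119, [0]), (113, []), (110, []), (109, []), (106, []), (101, []), (102, [0]), (51, []), (50, []), (99, []), (14, [1, 0, 2]), (78, []), (77, []), (76, [0]), (79, []), (80, [1]), (22, [1, 2]), (83, [1, 0]), (72, [0]), (73, []), (20, [0, 2]), (21, [1, 2]), (12, [0, 1, 2]), (69, [0]), (68, []), (67, []), (66, [0]), (71, []), (70, []), (61, [0]), (62, []), (75, []), (74,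 []), (56, [0]), (55, []), (54, []), (57, []), (58, [1]), (82, [1]), (81, [1]), (60, [0, 1]), (159, [0, 1, 0, 1, 0, 2]), (158, [0, 1, 0, 1, 0, 2]), (157, [0, 1, 0, 1, 2]), (153, [1, 0, 2]), (238, [2]), (236, [2]), (152, [0, 2]), (160, [0, 1, 0, 1, 2]), (166, [0, 1, 0, 1, 0, 2]), (155, [1, 0, 1, 0, 2]), (202, [0, 1, 0, 1, 0]), (17, [1, 0]), (156, [1, 0, 1, 0]), (100, [1]), (13, [1, 2]), (52, []), (97, [1]), (48, []), (49, [0]), (104, []), (103, []), (2, [0]), (47, []), (28, [1]), (24, [1]), (46, []), (45, []), (4, [0]), (23, []), (44, []), (26, [0, 1]), (40, [0, 1]), (117, [0]), (116, [0]), (42, []), (43, [0]), (121, [0]), (120, [0]), (128, [0]), (127, [0]), (125, []), (124, []), (251, [0, 1]), (123, [0]), (122, [0]), (134, [1, 0]), (245, [0]), (241, []), (133, []), (132, []), (129, [0, 1]), (150, []), (149, []), (138, [0]), (137, [0]), (141, []), (142, []), (139, []), (140, []),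 (145, []), (151, [0]), (143, []), (146, [2]), (148, [1]), (147, [1]), (136, []), (135, []), (144, [0]), (90, [0, 2]), (87, [0, 1, 2]), (38, [1, 0, 2]), (93, [0, 1, 0, 1, 2]), (96, [0, 1, 0, 1]), (86, [1, 0, 1, 0, 2]), (85, [0, 1, 0, 1, 0, 2]), (84, [0, 1, 0, 1, 0, 2]), (91, [1, 0, 1, 0, 2]), (37, [1, 0, 1, 2]), (173, [0, 1, 0, 2]), (170, [1, 2]), (188, [1, 2]), (172, [1, 0, 2]), (92, [0, 1, 0, 1, 0, 2]), (231, [1, 0]), (169, []), (168, []), (163, [1, 2]), (201, [0, 1, 0, 1, 2]), (165, [0, 1, 2]), (162, [0, 1, 0, 2]), (198, [0, 1, 0, 2]), (233, [0, 1, 0, 1]), (184, [0]), (216, [0, 1, 0, 1, 0]), (179, [1]), (178, [1]), (182, [0, 1, 0, 1, 0]), (183, [0, 1, 0, 1, 0]), (180, [0, 1, 0, 1, 0]), (181, [0, 1, 0, 1, 0]), (176, [0]), (186, []), (185, []), (197, [0, 1, 0, 1, 2]), (164, [1, 2]), (195, [0, 2]), (199, [0, 1, 0, 2]), (196, [1, 2]), (234, []), (235, []), (230, [0, 1]), (189,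 [0, 2]), (191, [1, 2]), (187, [1, 0, 1, 0, 2]), (174, [0, 1, 0, 2]), (190, [0, 1, 0, 2]), (228, [1, 2]), (171, [1, 0, 1, 0, 2]), (94, [0, 1, 0, 1, 0]), (206, [0, 1, 0]), (207, [1, 0, 1, 0]), (223, [0, 1, 0, 1]), (203, [0, 1, 0]), (204, [0, 1, 0, 1]), (215, []), (214, []), (211, [1]), (210, [1]), (220, [0, 1]), (218, [1]), (209, []), (208, []), (177, [0, 1, 0, 1, 0]), (222, [0]), (213, [1]), (221, [0, 1]), (212, [1, 0]), (219, [1, 0]), (217, [0]), (205, [1, 0, 1, 0]), (227, []), (226, []), (225, []), (224, []), (200, [1, 2]), (232, [0, 1, 0]), (194, [1, 0]), (167, [0, 1]), (229, [0, 1, 0]), (175, [1, 0, 1, 0]), (192, []), (193, []), (89, [2]), (237, [2]), (88, [2]), (239, [2]), (240, [2]), (131, []), (247, [0]), (244, []), (243, []), (130, [0]), (246, [2]), (242, [0]), (248, [2]), (249, [2]), (250, [2]), (126, [1, 0])],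
   [(105, [0]), (27, [0]), (3, [1]), (2, [1]), (5, []), (4, []), (23, [0]), (126, [1, 0, 1]), (121, [0, 1]), (43, [0]), (42, []), (44, [1]), (17, [1]), (100, [2]), (99, [1, 2]), (140, [0, 1, 0, 1, 2]), (133, [0, 1, 2]), (12, [1]), (156, [1, 0, 1, 0]), (244, [0, 1, 2]), (21, [0]), (20, [0]), (78, [0, 1, 2]), (6, [0]), (25, []), (24, []), (28, []), (1, [0]), (26, []), (40, []), (33, [0]), (32, []), (31, []), (30, [0]), (45, [1, 0]), (36, []), (35, []), (147, [1, 2]), (148, [2]), (46, [1, 0]), (29, []), (117, [0, 1]), (10, []), (9, [0]), (11, [1]), (34, [0, 1]), (39, [0, 1]), (114, [1, 0, 1]), (65, [1, 0]), (98, [1]), (53, [0]), (52, []), (51, []), (50, [0]), (55, []), (54, []), (57, [0]), (56, [0]), (76, []), (77, [0]), (69, []), (70, []), (71, []), (104, [0]), (103, [0, 1]), (48, [0, 1]), (67, []), (66, []), (83, [1]), (60, []), (61, []), (62, []), (73, [0]), (72, [0]), (93, []),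 (92, []), (58, []), (59, [0]), (22, [1, 0, 2]), (80, [1]), (79, [1]), (85, [2]), (84, [1, 2]), (68, [1]), (82, [1, 2]), (81, [2]), (141, [0, 1, 2]), (149, [0, 2]), (136, [2]), (137, [2]), (138, [2]), (139, [0, 1, 0, 2]), (75, []), (74, []), (94, [2]), (101, [0, 2]), (96, [2]), (102, [0, 1]), (49, [1]), (14, [1, 2]), (13, [2]), (95, [0, 2]), (97, [1, 0]), (64, [1, 0]), (63, [0]), (0, [0]), (107, []), (106, []), (113, []), (110, []), (109, []), (118, [0]), (119, [0]), (108, []), (47, [1, 0, 1]), (116, [1]), (115, [1]), (41, [1, 0]), (111, [0]), (112, [0]), (251, []), (8, [1, 0]), (123, []), (122, []), (128, [0]), (127, [0]), (7, [1, 0, 1]), (125, [0]), (124, [0]), (129, [2]), (130, [2]), (131, [2]), (132, [2]), (16, [1, 0, 2]), (240, [2]), (239, [2]), (88, [2]), (89, [2]), (90, [2]), (91, [0, 1, 0, 2]), (15, [1, 0, 1, 0, 2]), (86, [1, 0, 2]), (142, [2]), (143, [2]), (144, [2]),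 (146, [2]), (145, [2]), (37, [1, 2]), (38, [2]), (87, [0, 2]), (150, [2]), (237, [2]), (236, []), (238, [1]), (161, [1]), (166, [0]), (18, [0, 1, 0, 1]), (160, [1]), (159, []), (158, []), (157, [1]), (154, [1]), (163, []), (162, []), (196, []), (197, [0]), (155, [0]), (229, []), (234, []), (235, [0]), (223, [1, 0]), (203, [1]), (204, []), (205, []), (206, []), (225, [1]), (180, [0, 1, 0, 1]), (185, [0, 1, 0, 1]), (184, [0, 1, 0, 1]), (182, [0, 1, 0]), (176, [1, 0, 1, 0]), (186, [0, 1, 0, 1]), (179, [0, 1, 0]), (216, []), (178, [1, 0, 1, 0]), (177, [1, 0, 1, 0]), (181, [1, 0, 1, 0]), (207, [0]), (215, [0, 1, 0]), (224, [0, 1, 0]), (227, [0, 1, 0]), (208, [0, 1, 0]), (193, [0]), (192, [0]), (232, [0, 1, 0, 1]), (199, [0, 1]), (164, []), (165, [0]), (201, [0, 1, 0]), (195, [1, 0]), (233, [0, 1, 0, 1, 2]), (198, [0, 1, 0]), (250, [1, 0, 1]), (171, [1]), (172, []), (173, []), (174,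 []), (187, [0]), (191, [0, 1, 0]), (220, [0, 1, 0, 1, 0]), (219, [0, 1, 0, 1, 0]), (218, [0, 1, 0, 1, 0]), (222, [1, 0, 1, 0]), (221, [0, 1, 0, 1]), (217, [0, 1]), (188, [0, 1, 0]), (183, []), (214, [1, 0]), (211, [0, 1, 0, 1, 0]), (210, [0, 1, 0, 1, 0]), (209, [0, 1, 0, 1, 0]), (213, [1, 0, 1, 0]), (212, [0, 1, 0, 1]), (170, [0, 1]), (189, [0, 1, 0]), (175, [1]), (228, []), (190, [0, 1, 0]), (226, []), (167, []), (231, [1]), (230, [1]), (194, [1, 0, 1, 0]), (200, [1, 0, 1, 0, 2]), (168, []), (169, [0]), (152, []), (151, [2]), (153, [1]), (135, [2]), (134, [2]), (249, [1, 0, 2]), (242, [2]), (243, [2]), (19, [1, 0, 2]), (246, [2]), (245, [2]), (248, [2]), (247, [2]), (241, [0, 1, 2]), (202, [1, 0, 1]), (120, [])],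
   [(118, []), (42, []), (43, [0]), (121, [0, 1]), (23, [0]), (126, [1, 0]), (7, [1]), (6, [1]), (9, [1]), (8, [1]), (251, []), (123, [1]), (133, [0, 2]), (241, [0, 2]), (247, [2]), (248, []), (19, [1]), (244, [0, 2]), (249, [1]), (16, [1]), (245, [0, 1, 2]), (151, [1, 2]), (135, [1, 2]), (4, [0]), (46, [1]), (127, [0, 1]), (128, [0, 1]), (120, [0]), (45, [1]), (30, []), (29, []), (40, []), (33, [0]), (32, [0]), (124, [1, 0]), (115, [1, 0]), (41, [1]), (92, [0]), (89, [1, 0]), (125, [1, 0]), (31, []), (36, [1]), (1, []), (2, [0]), (47, []), (28, [1]), (24, [1]), (44, []), (48, [2]), (49, [2]), (50, [2]), (51, [2]), (142, [0, 1, 0]), (242, [0, 1, 0]), (94, [2]), (55, [2]), (56, [2]), (143, [0, 1]), (129, [0, 1, 0]), (150, []), (149, []), (138, [0, 1]), (147, [1, 0]), (130, [1, 0]), (144, [0]), (132, [1]), (139, [0, 1]), (82, [1]), (81, []), (141, [0, 1, 0]), (74, [2]), (75, [2]),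 (137, [1, 0]), (148, [0]), (70, [2]), (71, [2]), (76, [2]), (77, [2]), (202, [0, 1, 0, 1, 0, 2]), (145, [0, 1]), (134, [0, 1]), (68, []), (67, [1]), (136, [0, 1]), (91, [0]), (88, [0]), (87, []), (86, []), (85, [0]), (38, [0, 1]), (93, [1, 0]), (84, [0]), (37, [0]), (90, [0, 1]), (54, [2]), (243, [0, 1, 0, 2]), (97, [1, 2]), (96, [1, 2]), (131, [0, 1]), (140, [0, 1, 0]), (156, [1, 0, 1, 0, 2]), (101, [2]), (102, [2]), (103, [2]), (104, [2]), (119, [0]), (113, []), (110, []), (109, []), (108, []), (107, []), (112, []), (111, []), (106, []), (122, [1, 0, 1]), (35, [0, 1]), (117, []), (116, []), (0, []), (105, [0]), (27, [0]), (3, [1, 0]), (114, [1, 0, 1]), (11, [1]), (34, [0, 1]), (39, [0, 1]), (5, [0, 1]), (25, [1, 0]), (26, [1, 0]), (58, [0, 1, 0]), (63, [0, 1]), (98, [1, 0]), (65, [1]), (12, [0, 2]), (80, [1, 0]), (22, [1, 2]), (83, [1, 0]), (72, [0, 1]), (61, [1, 0]), (66,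 [1, 0]), (99, [0, 1, 0]), (69, [0, 1, 0]), (52, [0, 1, 0]), (57, [1, 0]), (64, [0]), (79, [1, 0]), (240, [0, 1, 0]), (62, [0, 1]), (73, [0]), (60, []), (59, []), (21, [1, 2]), (155, [0, 1, 0, 1, 0]), (157, [1, 0, 1, 0]), (236, [1, 0, 1, 0]), (152, [0, 1, 0, 1, 0]), (100, [0, 1, 0, 1, 2]), (153, [0, 1, 0, 1]), (238, [1, 0, 1, 0]), (160, []), (159, []), (166, [0]), (195, [0]), (164, [1]), (163, [1]), (201, [0, 1, 0, 1, 0]), (161, [0]), (168, []), (167, []), (231, [1, 0]), (188, [1]), (172, [1]), (171, [1]), (189, [0, 1, 0]), (175, []), (174, []), (177, [1]), (176, [1]), (179, []), (178, []), (181, []), (180, []), (183, []), (182, []), (216, [1, 0, 1]), (186, [0]), (185, [0]), (228, [0]), (170, [1]), (173, [0, 1, 0]), (191, []), (190, []), (234, [0, 1, 0, 1, 0]), (229, [0, 1, 0, 1]), (230, [0, 1, 0, 1, 0]), (162, [0]), (199, [0, 1, 0, 1]), (200, [0, 1, 0, 1]), (233, [1, 0, 1, 2]),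 (196, [1, 0, 1, 0]), (197, [1, 0, 1, 0]), (165, [0, 1, 0, 1, 0]), (78, [0, 1, 0, 1, 0, 2]), (221, [1, 0, 1]), (213, [0, 1, 0]), (222, [1]), (219, [0, 1]), (218, []), (209, []), (208, []), (225, [1, 0, 1, 0]), (226, [0, 1, 0, 1, 0]), (224, [0, 1, 0]), (204, [0, 1, 0]), (215, []), (214, []), (184, [1, 0, 1]), (223, [0, 1]), (207, []), (206, [1, 0]), (227, [0, 1, 0, 1, 0]), (203, [1, 0, 1]), (205, [1]), (217, [1, 0]), (212, [0, 1, 0]), (210, [0, 1, 0, 1]), (211, [0, 1, 0, 1, 0]), (220, [0, 1, 0, 1, 0]), (187, [0]), (193, [1, 0, 1, 0]), (194, [0, 1, 0, 1, 0]), (169, [0, 1]), (235, [1]), (198, [1, 0, 1, 2]), (192, [0, 1, 0, 1, 0]), (232, [1]), (154, [0, 1, 0, 1]), (246, [0, 1, 0, 1]), (158, [0, 1, 0, 1]), (250, [0, 1, 0]), (146, [0, 1, 0]), (13, [0, 2]), (53, [0, 1, 0]), (95, [0, 1, 0, 2]), (17, [0, 2]), (20, [1, 0, 2]), (237, [1, 0, 1, 0]), (14, [2]), (15, []), (18, [1]), (239, [0,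 1, 0]), (10, [])],
   [(0, [2]), (1, [2]), (2, [2]), (3, [2]), (17, [1, 2]), (12, [2]), (13, [2]), (14, [2]), (53, [0, 1]), (98, [1]), (65, [1, 0]), (63, [0]), (5, [2]), (6, [2]), (7, [2]), (16, []), (15, []), (4, [1, 2]), (19, []), (18, []), (25, [2]), (24, [0, 2]), (125, [1, 0, 1, 2]), (100, [0]), (21, [0, 2]), (20, [2]), (26, [2]), (27, [2]), (28, [2]), (73, []), (68, [0]), (69, [0]), (60, [0]), (83, [1]), (58, []), (66, []), (67, []), (84, []), (85, []), (80, [1]), (72, [0]), (62, [0, 1]), (48, []), (49, [0]), (104, [1]), (76, [0, 1]), (79, [0, 1]), (47, [2]), (42, []), (43, [0]), (121, [0]), (120, []), (251, []), (8, [1, 0]), (123, [1]), (122, [1]), (110, [1]), (109, [1, 0]), (34, []), (124, [1, 0]), (32, [0]), (115, [1, 0]), (41, [1, 0]), (11, [0]), (108, [1, 0, 1]), (10, [0, 1]), (35, []), (36, []), (30, [0]), (31, [0]), (116, [0]), (117, []), (40, [0]), (29, []), (75,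 [0]), (74, [0]), (45, [1, 0]), (128, [0, 1]), (127, [0, 1]), (46, [1, 0]), (39, [1]), (148, []), (147, []), (33, [1]), (37, []), (38, []), (89, [1]), (88, []), (87, []), (86, [1]), (91, [0, 1, 0]), (90, [0, 1, 0]), (93, [0]), (92, [0]), (130, [1, 2]), (111, [2]), (243, [0, 1, 2]), (112, [0, 1]), (9, [1]), (126, [1, 0]), (23, [0]), (118, []), (119, [0]), (113, [1]), (44, [1]), (105, [2]), (106, [2]), (107, [2]), (64, [1, 0, 1]), (57, [0, 1]), (56, [1]), (95, [2]), (97, [1, 0]), (103, [1]), (114, [2]), (61, [0, 1]), (70, [0]), (71, []), (101, []), (102, [0]), (51, []), (50, [0]), (55, [1]), (54, [1]), (59, [0, 1]), (22, [1, 0, 1, 2]), (99, [0, 1]), (78, [1, 0]), (77, [1, 0]), (150, [0, 1, 0]), (94, [1, 2]), (242, [0, 1, 0]), (142, [0, 1]), (140, [0, 1]), (135, [0]), (134, [0]), (149, [0]), (141, [0]), (139, []), (138, []), (133, [1, 0]), (137, [0]), (132, [1, 0]), (144, []), (143,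 []), (151, [0]), (237, [0]), (82, []), (81, []), (136, [0]), (129, [0, 1, 0]), (145, [0]), (160, [1, 0, 1, 0]), (238, [0, 1]), (158, [1, 0, 1]), (166, [1, 0]), (244, [1, 0, 1, 0, 2]), (236, [0, 1, 0]), (154, [1, 0, 1]), (161, [0, 1]), (152, [0, 1, 0, 1]), (159, [1, 0]), (198, [1, 0, 1]), (201, [1, 0, 1, 0]), (200, [1, 0, 1, 0]), (197, [0, 1]), (155, [0, 1]), (194, [1, 0, 1, 0]), (169, [0]), (168, [0]), (171, [0]), (170, [0]), (187, []), (174, [1]), (173, [1]), (191, [0, 1, 0, 1, 0]), (210, [0, 1, 0, 1, 0]), (209, [0, 1, 0, 1, 0]), (218, [0, 1, 0, 1]), (213, [1, 0, 1, 0]), (219, [1, 0, 1, 0]), (222, [0, 1, 0, 1]), (221, [0, 1, 0]), (217, [0, 1]), (211, [0, 1, 0, 1, 0]), (220, [1, 0, 1, 0]), (212, [0, 1, 0, 1]), (172, []), (228, [0, 1, 0, 1]), (190, [1]), (189, [1]), (175, [0, 1, 0, 1, 0]), (193, []), (192, []), (167, [0, 1, 0, 1]), (199, [0, 1, 0, 1, 0]), (233, [2]), (165, [1,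 0]), (162, [1, 0, 1]), (195, [0, 1, 0, 1, 0]), (164, [0, 1, 0, 1]), (163, [0, 1, 0, 1]), (245, [1, 0, 1, 2]), (223, []), (207, [0]), (206, [1]), (205, [1]), (204, [0]), (225, [1, 0, 1]), (177, [0, 1, 0, 1, 0]), (176, [0, 1, 0, 1, 0]), (184, [0, 1, 0, 1, 0]), (186, [1, 0, 1, 0]), (179, [0, 1, 0, 1]), (216, []), (226, [1, 0, 1]), (214, []), (183, [1, 0]), (178, [1, 0, 1, 0]), (180, [0, 1, 0, 1]), (185, [0, 1, 0, 1]), (182, [0, 1, 0]), (181, [1, 0, 1, 0]), (203, []), (227, [1, 0, 1]), (208, [1, 0, 1]), (215, [1, 0, 1]), (224, [1, 0, 1]), (188, [1, 0, 1, 0]), (232, []), (231, []), (230, []), (229, []), (196, [2]), (235, []), (234, []), (157, [0, 1, 0]), (146, [0]), (153, [1, 0]), (240, [0]), (239, [0]), (247, [1, 0]), (131, [0, 1, 0]), (96, [1, 0, 2]), (156, [0, 1, 0, 1, 2]), (202, [1, 0, 1, 2]), (250, []), (241, [0, 1]), (249, []), (248, []), (246, []), (52, [])]]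

theorem invTF : invAll treeF.tr gensF certsF = true := by decide +kernel

end KC
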